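import Mathlib
import Pool.Agent.H735.MG.Zfc
import Pool.Agent.H735.MG.Points
import Pool.Agent.H735.MG.Ground

set_option autoImplicit false

/-!
# MP_6245c4_gt, Q1: it is consistent that `max {b, g} < add(S_fin(O, O))`

Start with a model of `b < g` (for instance the Miller model), and add `b` random reals. The union of
`b` Menger sets of reals is Menger in the extension: random forcing does not add unbounded functions,
and therefore each name of a Menger set gives a groupwise dense family in the ground model; a common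
element of `b` such families is used to select from the covers. But the random reals form an
increasing chain of length `b` of proper parts of the set of all reals, so that `g ≤ b` in the
extension, and `b` does not change. The argument of the second part is carried out in ZFC from the
hypothesis `Hyp`, which the measure algebra forces by the first part.

See `Pool.Agent.H735.MG.Defs` for the hypothesis, for actual objects and in the forcing language, and
`Pool.Agent.R582.Rand.MAlg` for the measure algebra as a notion of forcing.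
-/

namespace Pool.Agent.Results.MP_6245c4_gt.ConsistentlyLarger

open Cardinal Set Filter MeasureTheory
open Pool.Agent.R582.Rand (MAlg)
open Pool.Agent.R582.GG (Om mu EE)
open Pool.Agent.H735.MG

/-- (1) Let `W` be a nonempty linearly ordered set in which countable sets have strict upper bounds,
such that families of groupwise dense families indexed by `W` have a common element, and let `u` be
an unbounded family of functions indexed by `W`. Then every condition of the measure algebra of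
`[0,1] ^ (W × ℕ)` (adding random reals) forces the hypothesis `Hyp` for the set of all functions from
`ℕ` to `ℕ` of the ground model, `W`, the set of names of sets of natural numbers, `u` and the relation
`e` depends on the coordinates with first component at most `w` only. (2) If `b < g` then there are
such `W` and `u`. (3) In ZFC, `Hyp K W E d u R` implies that `b ≤ |W|` and `g ≤ |W|`, but the additivity
number of the Menger property is larger than `|W|`; so `max {b, g} < add(S_fin(O, O))` and the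
sentence of the frozen statement S13275 is false. -/
theorem result :
    (∀ (W : Type) [LinearOrder W] [Nonempty W] (u : W → ℕ → ℕ),
      (∀ f : ℕ → W, ∃ w, ∀ n, f n < w) → (∀ g : ℕ → ℕ, ∃ w, ∀ N, ∃ n, N ≤ n ∧ g n < u w n) →
      (∀ 𝒢 : W → Set (Set ℕ), (∀ w, GDense (𝒢 w)) → ∃ A : Set ℕ, A.Infinite ∧ ∀ w, A ∈ 𝒢 w) →
      Nonempty (MAlg (mu (W × ℕ))) ∧ ∀ p : MAlg (mu (W × ℕ)),
        p ∈ HypN (MAlg (mu (W × ℕ))) (ℕ → ℕ) W (EE (W × ℕ)) id u (RW W)) ∧
    (bb < gg → ∃ (W : Type) (_ : LinearOrder W) (u : W → ℕ → ℕ), Nonempty W ∧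
      (∀ f : ℕ → W, ∃ w, ∀ n, f n < w) ∧ (∀ g : ℕ → ℕ, ∃ w, ∀ N, ∃ n, N ≤ n ∧ g n < u w n) ∧
      ∀ 𝒢 : W → Set (Set ℕ), (∀ w, GDense (𝒢 w)) → ∃ A : Set ℕ, A.Infinite ∧ ∀ w, A ∈ 𝒢 w) ∧
    (∀ (K W E : Type) (d : K → ℕ → ℕ) (u : W → ℕ → ℕ) (R : W → E → Prop), Hyp K W E d u R →
      bb ≤ #W ∧ gg ≤ #W ∧ #W < addMenger ∧ max bb gg < addMenger ∧ ¬ Sentence) := by
  refine ⟨fun W _ _ u hb hu hW => ⟨⟨⟨univ, MeasurableSet.univ, ?_⟩⟩, fun p => forces hb hu hW p⟩,
    exists_index, fun K W E d u R h => ⟨h.bb_le, h.gg_le, h.lt_add, h.max_lt, fun hs => ?_⟩⟩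
  · rw [measure_univ]
    exact one_ne_zero
  · exact absurd hs h.max_lt.ne'

/-- `Sentence` is the sentence of the frozen statement S13275 -/
example : Sentence = (
  sInf {κ : Cardinal.{0} | ∃ 𝓕 : Set (Set ℝ), Cardinal.mk ↥𝓕 = κ ∧
      (∀ X ∈ 𝓕, ∀ U : ℕ → Set (Set ℝ), (∀ n, (∀ u ∈ U n, IsOpen u) ∧ X ⊆ ⋃₀ U n) →
          ∃ F : ℕ → Set (Set ℝ), (∀ n, F n ⊆ U n ∧ (F n).Finite) ∧ X ⊆ ⋃ n, ⋃₀ F n) ∧
      ¬ (∀ U : ℕ → Set (Set ℝ), (∀ n, (∀ u ∈ U n, IsOpen u) ∧ ⋃₀ 𝓕 ⊆ ⋃₀ U n) →
          ∃ F : ℕ → Set (Set ℝ), (∀ n, F n ⊆ U n ∧ (F n).Finite) ∧ ⋃₀ 𝓕 ⊆ ⋃ n, ⋃₀ F n)}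
  = max (sInf {κ : Cardinal.{0} | ∃ B : Set (ℕ → ℕ), Cardinal.mk ↥B = κ ∧
          ∀ g : ℕ → ℕ, ∃ f ∈ B, ¬ ∀ᶠ n in Filter.atTop, f n ≤ g n})
        (sInf {κ : Cardinal.{0} | ∃ 𝒢 : Set (Set (Set ℕ)), Cardinal.mk ↥𝒢 = κ ∧
          (∀ G ∈ 𝒢, (∀ A ∈ G, A.Infinite) ∧
             (∀ A ∈ G, ∀ B : Set ℕ, B.Infinite → (B \ A).Finite → B ∈ G) ∧
             (∀ p : ℕ → ℕ, StrictMono p → p 0 = 0 → ∃ I : Set ℕ, I.Infinite ∧
                {m : ℕ | ∃ i ∈ I, p i ≤ m ∧ m < p (i + 1)} ∈ G)) ∧
          ⋂₀ 𝒢 = ∅})) := rfl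

end Pool.Agent.Results.MP_6245c4_gt.ConsistentlyLarger
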